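import Pool.Agent.H840Z.MG.AHMain

set_option autoImplicit false

namespace Pool.Agent.Results.MP_53fefd_al.AHBorel

open Pool.Agent.H840Z.MG

/-- Q2: the acylindrically hyperbolic marked groups form a Borel subset of each `𝒢_n`. -/
theorem result (n : ℕ) : @MeasurableSet (MarkedGroup n) (borel (MarkedGroup n))
    {N : MarkedGroup n | AcylindricallyHyperbolic (FreeGroup (Fin n) ⧸ N.1)} :=
  borel_AH n

end Pool.Agent.Results.MP_53fefd_al.AHBorel
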